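import Pool.Agent.Q199.SR.Fin
import Pool.Agent.Q199.SR.SE
import Pool.Agent.Q199.SR.EXT
import Pool.Agent.Q199.SR.ONE
import Pool.Agent.Q199.SR.SUB
import Pool.Agent.Q199.SR.BC
import Pool.Agent.Q199.SR.WA
import Pool.Agent.Q199.SR.FIL
import Pool.Agent.Q199.SR.STR
import Pool.Agent.Q199.SR.TAU
import Pool.Agent.Q199.SR.RQ

/-!
# Associative varieties with a unique basic superrank (MP_1a662b_al)

Let `F` be a field of characteristic `0` and let `V` be the variety generated by the Grassmann
envelope of a finite-dimensional associative superalgebra `B` over `F`; by Kemer's theorem every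
variety of associative algebras is of this form. Then `V` is generated by the Grassmann envelope of
a `V`-superalgebra with two even and finitely many odd generators. So `V` has a basic superrank
`(r, s)` with `r ≤ 2`, and no pair `(r, s)` with `r ≥ 3` is the unique basic superrank of `V`.
-/

set_option autoImplicit false

namespace Pool.Agent.Results.MP_1a662b_al.AtMostTwoEven

open Pool.Agent.Q29.SR Pool.Agent.Q199.SR

universe u

variable {F : Type u} [Field F]

/-- The variety `V` defined by `S` is generated by the Grassmann envelope of a `V`-superalgebra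
generated by `r` even and `s` odd elements; equivalently `V = var(G(F_{r,s}(V)))`. -/
def Reaches (S : Set (NAPoly F)) (r s : ℕ) : Prop :=
  ∃ A : SuperAlg F, A.envelope.IsIn S ∧ A.GeneratedBy r s ∧ IsVarOf S A.envelope

/-- `(r, s)` is a basic superrank of the variety defined by `S`. -/
def IsBasicSuperrank (S : Set (NAPoly F)) (r s : ℕ) : Prop :=
  Reaches S r s ∧ ∀ r' s' : ℕ, r' ≤ r → s' ≤ s → (r', s') ≠ (r, s) → ¬ Reaches S r' s'

/-- The basic spectrum of the variety defined by `S` is `{(r, s)}`. -/
def IsUniqueBasicSuperrank (S : Set (NAPoly F)) (r s : ℕ) : Prop :=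
  ∀ r' s' : ℕ, IsBasicSuperrank S r' s' ↔ (r', s') = (r, s)

theorem exists_basic (S : Set (NAPoly F)) (r s : ℕ) (h : Reaches S r s) :
    ∃ r' s' : ℕ, r' ≤ r ∧ s' ≤ s ∧ IsBasicSuperrank S r' s' := by
  classical
  obtain ⟨n, hn⟩ : ∃ n, n = r + s := ⟨_, rfl⟩
  induction n using Nat.strong_induction_on generalizing r s with
  | _ n ih =>
    by_cases hb : IsBasicSuperrank S r s
    · exact ⟨r, s, le_refl _, le_refl _, hb⟩
    · have : ∃ r' s' : ℕ, r' ≤ r ∧ s' ≤ s ∧ (r', s') ≠ (r, s) ∧ Reaches S r' s' := by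
        by_contra hcon
        push Not at hcon
        exact hb ⟨h, fun r' s' h1 h2 h3 => hcon r' s' h1 h2 h3⟩
      obtain ⟨r', s', h1, h2, h3, h4⟩ := this
      have hlt : r' + s' < n := by
        have : r' ≠ r ∨ s' ≠ s := by
          by_contra hc
          push Not at hc
          exact h3 (by rw [hc.1, hc.2])
        omega
      obtain ⟨r'', s'', k1, k2, k3⟩ := ih _ hlt r' s' h4 rfl
      exact ⟨r'', s'', k1.trans h1, k2.trans h2, k3⟩

/-- Let `V` be the variety generated by the Grassmann envelope of the finite-dimensional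
associative superalgebra `B`. Two even generators and finitely many odd ones are enough; `V` has a
basic superrank `(r, s)` with `r ≤ 2`; no `(r, s)` with `r ≥ 3` is the unique basic superrank. -/
theorem result (F : Type u) [Field F] [CharZero F] (S : Set (NAPoly F)) (B : SuperAlg F)
    [FiniteDimensional F B.carrier] (hB : ∀ x y z : B.carrier, x * y * z = x * (y * z))
    (hS : IsVarOf S B.envelope) :
    (∃ s : ℕ, Reaches S 2 s) ∧ (∃ r s : ℕ, r ≤ 2 ∧ IsBasicSuperrank S r s) ∧
      ∀ r s : ℕ, 3 ≤ r → ¬ IsUniqueBasicSuperrank S r s := by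
  have hSE := t_SE.{u}
  obtain ⟨s, A, hA, hf⟩ := Fin.main hSE (t_EXT t_ONE) t_SUB (t_BC hSE) (t_STR t_WA t_FIL)
    (t_RQ t_TAU) F B hB
  have hV : IsVarOf S A.envelope := fun B' => (hS B').trans
    ⟨fun h f hf' => h f ((hf f).2 hf'), fun h f hf' => h f ((hf f).1 hf')⟩
  have hR : Reaches S 2 s := ⟨A, (hV _).2 fun f hf' => hf', hA, hV⟩
  obtain ⟨r', s', h1, -, h3⟩ := exists_basic S 2 s hR
  refine ⟨⟨s, hR⟩, ⟨r', s', h1, h3⟩, fun r t hr hu => ?_⟩
  have h4 := (hu r' s').1 h3
  rw [Prod.mk.injEq] at h4
  omega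

end Pool.Agent.Results.MP_1a662b_al.AtMostTwoEven
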